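import Pool.Agent.Helper77.SD.St

/-! # Project SD (MP_93a5ff_an), module DIVH -/

set_option autoImplicit false

namespace Pool.Agent.Helper78.SD

open Pool.Agent.Helper77.SD
open MeasureTheory Metric Set
open scoped Gradient RealInnerProductSpace ENNReal

variable {d : ℕ}

lemma cont_dv {W : E d → E d} (hW : ContDiff ℝ 1 W) : Continuous (dv W) := by
  have h1 : Continuous (fderiv ℝ W) := hW.continuous_fderiv (by norm_num)
  unfold dv
  refine continuous_finsetSum _ fun i _ => ?_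
  have h2 : Continuous fun x => (fderiv ℝ W x) (EuclideanSpace.single i (1 : ℝ)) := h1.clm_apply continuous_const
  exact (EuclideanSpace.proj (𝕜 := ℝ) i).continuous.comp h2

lemma l2_smulW {W : E d → E d} {K' : ℝ} (hW : Continuous W) (hb : ∀ x, ‖W x‖ ≤ K') {g : E d → ℝ} (hg : L2 g) :
    L2 (fun x => g x • W x) := by
  refine l2_of_le (K := K') hg (hg.1.smul hW.aestronglyMeasurable) fun x => ?_
  rw [norm_smul, mul_comm]
  exact mul_le_mul_of_nonneg_right (hb x) (norm_nonneg _)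

lemma l2_mulK {h : E d → ℝ} {K : ℝ} (hh : Continuous h) (hb : ∀ x, |h x| ≤ K) {g : E d → ℝ} (hg : L2 g) :
    L2 (fun x => h x * g x) := by
  refine l2_of_le (K := K) hg (hh.aestronglyMeasurable.mul hg.1) fun x => ?_
  rw [norm_mul]
  exact mul_le_mul_of_nonneg_right (hb x) (norm_nonneg _)

lemma l2_innerW {W : E d → E d} {K' : ℝ} (hW : Continuous W) (hb : ∀ x, ‖W x‖ ≤ K') {Γ : E d → E d} (hg : L2 Γ) :
    L2 (fun x => ⟪W x, Γ x⟫) := by
  refine l2_of_le (K := K') hg (hW.aestronglyMeasurable.inner hg.1) fun x => ?_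
  exact (norm_inner_le_norm _ _).trans (mul_le_mul_of_nonneg_right (hb x) (norm_nonneg _))

/-- the splitting of the left side, for arbitrary `L²` pairs -/
lemma split {W : E d → E d} {K K' : ℝ} (hW : Continuous W) (hb : ∀ x, ‖W x‖ ≤ K') (hd : Continuous (dv W))
    (hK : ∀ x, |dv W x| ≤ K) {f g : E d → ℝ} {F Γ : E d → E d} (hf : L2 f) (hF : L2 F) (hg : L2 g) (hΓ : L2 Γ) :
    (∫ x, ⟪W x, g x • F x + f x • Γ x⟫) + (∫ x, dv W x * (f x * g x)) =
      (∫ x, ⟪f x • W x, Γ x⟫) + ∫ x, (⟪W x, F x⟫ + dv W x * f x) * g x := by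
  have i1 : Integrable (fun x => ⟪f x • W x, Γ x⟫) := integrable_inner (l2_smulW hW hb hf) hΓ
  have i2 : Integrable (fun x => ⟪g x • W x, F x⟫) := integrable_inner (l2_smulW hW hb hg) hF
  have i3 : Integrable (fun x => dv W x * f x * g x) := integrable_mul (l2_mulK hd hK hf) hg
  have e1 : (∫ x, ⟪W x, g x • F x + f x • Γ x⟫) = (∫ x, ⟪g x • W x, F x⟫) + ∫ x, ⟪f x • W x, Γ x⟫ := by
    rw [← integral_add i2 i1]
    congr 1; ext x
    rw [inner_add_right, real_inner_smul_right, real_inner_smul_right, real_inner_smul_left, real_inner_smul_left]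
  have e2 : (∫ x, (⟪W x, F x⟫ + dv W x * f x) * g x) = (∫ x, ⟪g x • W x, F x⟫) + ∫ x, dv W x * f x * g x := by
    rw [← integral_add i2 i3]
    congr 1; ext x
    rw [real_inner_smul_left]; ring
  have e3 : (∫ x, dv W x * (f x * g x)) = ∫ x, dv W x * f x * g x := by
    congr 1; ext x; ring
  rw [e1, e2, e3]; ring

theorem hDIVH (h1 : StLIN) (h2 : StDIV) : StDIVH := by
  intro d W K K' hW hb hK f g F Γ hf hg
  have hWc : Continuous W := hW.continuous
  have hdc : Continuous (dv W) := cont_dv hW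
  -- first step: one function is in `C¹_c`
  have s1 : ∀ w₁ : E d → ℝ, ContDiff ℝ 1 w₁ → HasCompactSupport w₁ →
      (∫ x, ⟪W x, g x • ∇ w₁ x + w₁ x • Γ x⟫) + (∫ x, dv W x * (w₁ x * g x)) = 0 := by
    intro w₁ hw₁ hc₁
    have l1 : L2 w₁ := l2_of_compact hw₁.continuous hc₁
    have l2 : L2 (∇ w₁) := l2_grad hw₁ hc₁
    rw [split hWc hb hdc hK l1 l2 hg.l2 hg.l2G]
    refine h1 d (fun x => w₁ x • W x) (fun x => ⟪W x, ∇ w₁ x⟫ + dv W x * w₁ x) (l2_smulW hWc hb l1)
      ((l2_innerW hWc hb l2).add (l2_mulK hdc hK l1)) ?_ g Γ hg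
    intro w₂ hw₂ hc₂
    have l3 : L2 w₂ := l2_of_compact hw₂.continuous hc₂
    have l4 : L2 (∇ w₂) := l2_grad hw₂ hc₂
    rw [← split hWc hb hdc hK l1 l2 l3 l4, h2 d W w₁ w₂ hW hw₁ hw₂ hc₁ hc₂]
    ring
  have s2 : (∫ x, ⟪W x, g x • F x + f x • Γ x⟫) + (∫ x, dv W x * (f x * g x)) = 0 := by
    have sw : ∀ (f' : E d → ℝ) (F' : E d → E d), (∫ x, ⟪W x, g x • F' x + f' x • Γ x⟫) + (∫ x, dv W x * (f' x * g x)) =
        (∫ x, ⟪W x, f' x • Γ x + g x • F' x⟫) + (∫ x, dv W x * (g x * f' x)) := by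
      intro f' F'
      congr 1
      · congr 1; ext x; rw [add_comm]
      · congr 1; ext x; ring
    rw [sw, split hWc hb hdc hK hg.l2 hg.l2G hf.l2 hf.l2G]
    refine h1 d (fun x => g x • W x) (fun x => ⟪W x, Γ x⟫ + dv W x * g x) (l2_smulW hWc hb hg.l2)
      ((l2_innerW hWc hb hg.l2G).add (l2_mulK hdc hK hg.l2)) ?_ f F hf
    intro w hw hc
    have l1 : L2 w := l2_of_compact hw.continuous hc
    have l2 : L2 (∇ w) := l2_grad hw hc
    rw [← split hWc hb hdc hK hg.l2 hg.l2G l1 l2, ← sw, s1 w hw hc]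
  linarith

end Pool.Agent.Helper78.SD
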